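import Mathlib
import Pool.Agent.H577R3.RM.Stmts

set_option autoImplicit false

/-! Random metabelian groups, task BH (helper766). -/

namespace Pool.Agent.H577R3.RM

open Pool.Agent.Helper777.Prof Pool.Agent.H577R3

namespace BHp

theorem evl_X {K : Type} [Field K] {n : ℕ} (θ : Fin n → Kˣ) (u : Fin n → ℤ) :
    evl θ (X u) = (mon θ (Multiplicative.ofAdd u) : K) := by
  simp [evl, X]

theorem evl_X_sub_one {K : Type} [Field K] {n : ℕ} (θ : Fin n → Kˣ) (u : Fin n → ℤ) :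
    evl θ (X u - 1) = 0 ↔ mon θ (Multiplicative.ofAdd u) = 1 := by
  rw [map_sub, evl_X, map_one, sub_eq_zero]
  exact Units.val_eq_one

theorem EE_ge (n ℓ : ℕ) (hn : 2 ≤ n) : ℓ + 2 ≤ EE n ℓ := by
  unfold EE
  have h1 : ℓ + 2 ≤ n * (ℓ + 1) + 2 := by nlinarith
  calc ℓ + 2 ≤ n * (ℓ + 1) + 2 := h1
    _ ≤ (n * (ℓ + 1) + 2) ^ (n + 1) := Nat.le_self_pow (by omega) _

theorem Sz_zero {n : ℕ} (E : ℕ) : Sz E (0 : Lam n) :=
  ⟨0, Fin.elim0, Fin.elim0, Nat.zero_le _, fun i => i.elim0, fun i => i.elim0, by simp⟩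

theorem Sz_X_sub_one {n : ℕ} (E : ℕ) (hE : 2 ≤ E) (u : Fin n → ℤ) (hu : ∀ l, |u l| ≤ E) :
    Sz E (X u - 1 : Lam n) := by
  refine ⟨2, ![u, 0], ![1, -1], hE, ?_, ?_, ?_⟩
  · intro i
    fin_cases i <;> simp <;> omega
  · intro i l
    fin_cases i
    · exact hu l
    · simp
  · have h0 : X (0 : Fin n → ℤ) = (1 : Lam n) := by
      show MonoidAlgebra.of ℤ (Zm n) (Multiplicative.ofAdd 0) = 1
      rw [ofAdd_zero, map_one]
    rw [Fin.sum_univ_two]
    show X u - 1 = (1 : ℤ) • X u + (-1 : ℤ) • X (0 : Fin n → ℤ)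
    rw [h0, one_smul, neg_smul, one_smul, sub_eq_add_neg]

noncomputable def fam {n ℓ m : ℕ} (r : Fin m → Fin ℓ → Lt n) (j : ℕ) (I : Finset (Fin n)) :
    (({l : Fin m // l.1 < j} → Fin n) ⊕ Fin m) → Lam n
  | Sum.inl a => if ∀ l, a l ∈ I then
      Matrix.det (Matrix.of fun l l' : {l : Fin m // l.1 < j} => fox (r l.1) (a l')) else 0
  | Sum.inr l => X (pos (r l) ℓ) - 1

theorem evl_fam_inl {K : Type} [Field K] {n ℓ m : ℕ} (θ : Fin n → Kˣ) (r : Fin m → Fin ℓ → Lt n)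
    (j : ℕ) (I : Finset (Fin n)) (a : {l : Fin m // l.1 < j} → Fin n) (ha : ∀ l, a l ∈ I) :
    evl θ (fam r j I (Sum.inl a)) =
      Matrix.det (Matrix.of fun l l' : {l : Fin m // l.1 < j} => evl θ (fox (r l.1) (a l'))) := by
  simp only [fam]
  rw [if_pos ha, RingHom.map_det]
  rfl

theorem exists_ne (h8 : TaskMIN) {K : Type} [Field K] {n ℓ m : ℕ} (θ : Fin n → Kˣ)
    (r : Fin m → Fin ℓ → Lt n) (j : ℕ) (I : Finset (Fin n)) (h : Ind r θ j I) :
    ∃ a, evl θ (fam r j I (Sum.inl a)) ≠ 0 := by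
  obtain ⟨a, ha, hne⟩ := (h8 K n m j (fun l x => evl θ (fox (r l) x)) I).mp h
  exact ⟨a, by rw [evl_fam_inl θ r j I a ha]; exact hne⟩

theorem ind_of_ne (h8 : TaskMIN) {K : Type} [Field K] {n ℓ m : ℕ} (θ : Fin n → Kˣ)
    (r : Fin m → Fin ℓ → Lt n) (j : ℕ) (I : Finset (Fin n))
    (a : {l : Fin m // l.1 < j} → Fin n) (hne : evl θ (fam r j I (Sum.inl a)) ≠ 0) :
    Ind r θ j I := by
  by_cases ha : ∀ l, a l ∈ I
  · rw [evl_fam_inl θ r j I a ha] at hne
    exact (h8 K n m j (fun l x => evl θ (fox (r l) x)) I).mpr ⟨a, ha, hne⟩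
  · exfalso
    apply hne
    simp only [fam]
    rw [if_neg ha, map_zero]

theorem ind_mono (h8 : TaskMIN) {K : Type} [Field K] {n ℓ m : ℕ} (θ : Fin n → Kˣ)
    (r : Fin m → Fin ℓ → Lt n) (j : ℕ) (I J : Finset (Fin n)) (hIJ : I ⊆ J)
    (h : Ind r θ j I) : Ind r θ j J := by
  obtain ⟨a, ha, hne⟩ := (h8 K n m j (fun l x => evl θ (fox (r l) x)) I).mp h
  exact (h8 K n m j (fun l x => evl θ (fox (r l) x)) J).mpr ⟨a, fun l => hIJ (ha l), hne⟩

theorem ind_congr {K : Type} [Field K] {n ℓ m : ℕ} (θ : Fin n → Kˣ)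
    (r r' : Fin m → Fin ℓ → Lt n) (j : ℕ) (I : Finset (Fin n))
    (hf : ∀ l : Fin m, l.1 < j → ∀ x ∈ I, fox (r l) x = fox (r' l) x) (h : Ind r θ j I) :
    Ind r' θ j I := by
  unfold Ind at h ⊢
  have : (fun (l : {l : Fin m // l.1 < j}) (x : {x // x ∈ I}) => evl θ (fox (r' l.1) x.1)) =
      (fun (l : {l : Fin m // l.1 < j}) (x : {x // x ∈ I}) => evl θ (fox (r l.1) x.1)) := by
    funext l x
    rw [hf l.1 l.2 x.1 x.2]
  rw [this]
  exact h

theorem Sz_fam (h7 : TaskSZ) (h10 : TaskFOXW) {n ℓ m : ℕ} (hmn : m + 2 ≤ n)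
    (r : Fin m → Fin ℓ → Lt n) (j : ℕ) (I : Finset (Fin n))
    (a : ({l : Fin m // l.1 < j} → Fin n) ⊕ Fin m) : Sz (EE n ℓ) (fam r j I a) := by
  have hE := EE_ge n ℓ (by omega)
  rcases a with a | l
  · simp only [fam]
    split_ifs
    · exact h7 n ℓ m j r a (by omega)
    · exact Sz_zero _
  · simp only [fam]
    apply Sz_X_sub_one _ (by omega)
    intro x
    have := (h10 n ℓ (r l)).2.2.2 x
    have h2 : ((ℓ : ℕ) : ℤ) + 2 ≤ (EE n ℓ : ℤ) := by exact_mod_cast hE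
    omega

theorem card_idx {n m : ℕ} (hmn : m + 2 ≤ n) (j : ℕ) :
    Fintype.card (({l : Fin m // l.1 < j} → Fin n) ⊕ Fin m) ≤ n ^ n + n := by
  rw [Fintype.card_sum, Fintype.card_fun, Fintype.card_fin, Fintype.card_fin]
  have h1 : Fintype.card {l : Fin m // l.1 < j} ≤ n := by
    calc Fintype.card {l : Fin m // l.1 < j} ≤ Fintype.card (Fin m) := Fintype.card_subtype_le _
      _ = m := Fintype.card_fin m
      _ ≤ n := by omega
  have h2 := Nat.pow_le_pow_right (show 0 < n by omega) h1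
  omega

theorem core (h1 : TaskSTEP) (h3 : TaskFX) (h4 : TaskRAD) (h5 : TaskCT)
    (h7 : TaskSZ) (h8 : TaskMIN) (h9 : TaskTR) (h10 : TaskFOXW)
    (n D : ℕ)
    (hD : ∀ (C : Finset (Fin n)) (E q : ℕ)
      (w : Fin n → Fin n → ℤ) (ι : Type) [Fintype ι] (h : ι → Lam n),
      2 ≤ E → 1 ≤ q → q ≤ E → (∀ i c, |w i c| ≤ (E : ℤ)) → Fintype.card ι ≤ n ^ n + n →
      (∀ a, Sz E (h a)) →
      (∀ (K : Type) [Field K] (θ : Fin n → Kˣ), Rad C q w θ → Gen0 C θ → ∃ a, evl θ (h a) ≠ 0) →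
      ∃ SS : Finset (Ideal (MvPolynomial {c // c ∈ C} ℤ)), SS.card ≤ E ^ D ∧
        ∀ (K : Type) [Field K] (θ : Fin n → Kˣ), Rad C q w θ → Hgt1 C θ →
          (∀ a, evl θ (h a) = 0) → RingHom.ker (evC C θ) ∈ SS)
    (ℓ m S0 : ℕ) (C : Finset (Fin n)) (j : Fin m) (i i' : Fin n) (hmn : m + 2 ≤ n)
    (hii : i ≠ i') (r : Fin m → Fin ℓ → Lt n)
    (hcan : ∀ t, ¬ At (r j) (6 * t + 1) (c1 i i')) :
    Nat.card {S : Finset ℕ // S ⊆ TW i i' (r j) ∧
      BadH S0 C j i i' (Function.update r j (put i i' S (r j)))} * 2 ^ S0 ≤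
      EE n ℓ ^ (D + n) * 2 ^ (TW i i' (r j)).card := by
  classical
  have hE := EE_ge n ℓ (by omega)
  by_cases hex : ∃ S : Finset ℕ, S ⊆ TW i i' (r j) ∧
      BadH S0 C j i i' (Function.update r j (put i i' S (r j)))
  swap
  · have hemp : IsEmpty {S : Finset ℕ // S ⊆ TW i i' (r j) ∧
        BadH S0 C j i i' (Function.update r j (put i i' S (r j)))} :=
      ⟨fun S => hex ⟨S.1, S.2⟩⟩
    rw [Nat.card_of_isEmpty, zero_mul]
    exact Nat.zero_le _
  -- properties of the switched rows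
  have hpos : ∀ S : Finset ℕ, S ⊆ TW i i' (r j) → ∀ l,
      pos (Function.update r j (put i i' S (r j)) l) ℓ = pos (r l) ℓ := by
    intro S hS l
    by_cases hl : l = j
    · subst hl
      rw [Function.update_self]
      exact (h3 n ℓ i i' (r l) S hii hcan hS).2.2.2.1
    · rw [Function.update_of_ne hl]
  have hfox : ∀ S : Finset ℕ, S ⊆ TW i i' (r j) → ∀ l x, x ≠ i → x ≠ i' →
      fox (Function.update r j (put i i' S (r j)) l) x = fox (r l) x := by
    intro S hS l x hx hx'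
    by_cases hl : l = j
    · subst hl
      rw [Function.update_self]
      exact (h3 n ℓ i i' (r l) S hii hcan hS).2.2.2.2.1 x hx hx'
    · rw [Function.update_of_ne hl]
  have hlt : ∀ (S : Finset ℕ) (l : Fin m), l.1 < j.1 →
      Function.update r j (put i i' S (r j)) l = r l := by
    intro S l hl
    rw [Function.update_of_ne]
    intro h
    rw [h] at hl
    exact lt_irrefl _ hl
  set I : Finset (Fin n) := Finset.univ \ {i, i'} with hI
  have hIne : ∀ x ∈ I, x ≠ i ∧ x ≠ i' := by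
    intro x hx
    rw [hI, Finset.mem_sdiff] at hx
    simp only [Finset.mem_insert, Finset.mem_singleton, not_or] at hx
    exact hx.2
  -- properties of `r`
  obtain ⟨S1, hS1, hbad⟩ := hex
  have hIsC : IsC (fun l => pos (r l) ℓ) C := by
    have := hbad.1
    have e : (fun l => pos (Function.update r j (put i i' S1 (r j)) l) ℓ) =
        fun l => pos (r l) ℓ := funext (hpos S1 hS1)
    rw [e] at this
    exact this
  have hSpr : Spr S0 i i' (r j) := by
    have h := hbad.2.1 i i' hii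
    rw [Function.update_self] at h
    intro Γ _ _ _ lam hlam
    obtain ⟨T, hT, hW, hinj⟩ := h Γ lam hlam
    have hfx := h3 n ℓ i i' (r j) S1 hii hcan hS1
    refine ⟨T, hT, fun t ht => (hfx.2.1 t).mp (hW t ht), ?_⟩
    intro t ht t' ht' heq
    apply hinj ht ht'
    simp only at heq ⊢
    rw [hfx.2.2.1 t, hfx.2.2.1 t']
    exact heq
  have hGR : GR C r (j.1 + 1) i i' := by
    intro K _ θ hθ hgen
    apply ind_congr θ (Function.update r j (put i i' S1 (r j))) r (j.1 + 1)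
    · intro l _ x hx
      exact hfox S1 hS1 l x (hIne x hx).1 (hIne x hx).2
    · apply hbad.2.2.1 K θ _ hgen
      intro l
      rw [hpos S1 hS1 l]
      exact hθ l
  -- the radicals
  have hvb : ∀ (l : Fin m) (x : Fin n), |pos (r l) ℓ x| ≤ (ℓ : ℤ) :=
    fun l x => (h10 n ℓ (r l)).2.2.2 x
  obtain ⟨q, w, hq1, hqE, hw, hrad⟩ := h4 n m ℓ (fun l => pos (r l) ℓ) C hIsC hvb
  -- the family
  have hfam0 : ∀ (K : Type) [Field K] (θ : Fin n → Kˣ), Rad C q w θ → Gen0 C θ →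
      ∃ a, evl θ (fam r (j.1 + 1) I a) ≠ 0 := by
    intro K _ θ _ hgen
    by_contra hcon
    push Not at hcon
    have hθ : ∀ l, mon θ (Multiplicative.ofAdd (pos (r l) ℓ)) = 1 := by
      intro l
      exact (evl_X_sub_one θ _).mp (hcon (Sum.inr l))
    obtain ⟨a, ha⟩ := exists_ne h8 θ r (j.1 + 1) I (hGR K θ hθ hgen)
    exact ha (hcon (Sum.inl a))
  obtain ⟨SS, hSS, hker⟩ := hD C (EE n ℓ) q w (({l : Fin m // l.1 < j.1 + 1} → Fin n) ⊕ Fin m)
    (fam r (j.1 + 1) I) (by omega) hq1 hqE hw (card_idx hmn _)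
    (Sz_fam h7 h10 hmn r (j.1 + 1) I) hfam0
  -- the ideals
  choose TT hTTcard hTTmem using fun p => h5 n C q w p hq1
  set UU : Finset (Ideal (Lam n)) := SS.biUnion TT with hUU
  have hUUcard : UU.card ≤ EE n ℓ ^ (D + n) := by
    calc UU.card ≤ ∑ p ∈ SS, (TT p).card := Finset.card_biUnion_le
      _ ≤ ∑ p ∈ SS, q ^ n := Finset.sum_le_sum (fun p _ => hTTcard p)
      _ = SS.card * q ^ n := by rw [Finset.sum_const, smul_eq_mul]
      _ ≤ EE n ℓ ^ D * EE n ℓ ^ n := Nat.mul_le_mul hSS (Nat.pow_le_pow_left hqE n)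
      _ = EE n ℓ ^ (D + n) := (pow_add _ _ _).symm
  have hC2 : 2 ≤ C.card := by
    have := hIsC.1
    omega
  let P : ∀ (K : Type) [Field K], (Fin n → Kˣ) → Prop := fun K _ θ =>
    (∀ l, mon θ (Multiplicative.ofAdd (pos (r l) ℓ)) = 1) ∧ Hgt1 C θ ∧
    Ind r θ j.1 Finset.univ ∧
    (∃ z : Fin n → K, (∀ l : Fin m, l.1 < j.1 → ∑ x, z x * evl θ (fox (r l) x) = 0) ∧
      ((θ i' : K) - 1) * z i - ((θ i : K) - 1) * z i' ≠ 0) ∧
    (∀ a, evl θ (fam r (j.1 + 1) I a) = 0)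
  have hstep := h1 n ℓ m S0 i i' r j Finset.univ UU P hii hcan hSpr (by
    intro K _ θ hP
    obtain ⟨hθ, hh, hind, ⟨z, hz1, hz2⟩, hfz⟩ := hP
    have hR : Rad C q w θ := hrad K θ hθ
    refine ⟨?_, (h9 n C K θ).1 hC2 hh, hind, z, ?_, hz1, hz2⟩
    · rw [hUU, Finset.mem_biUnion]
      exact ⟨_, hker K θ hR hh hfz, hTTmem _ K θ hR rfl⟩
    · intro x hx
      exact absurd (Finset.mem_univ x) hx)
  refine le_trans ?_ (le_trans hstep (Nat.mul_le_mul_right _ hUUcard))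
  apply Nat.mul_le_mul_right
  -- inclusion
  have hfin : Finite {S : Finset ℕ // S ⊆ TW i i' (r j) ∧ ∃ (K : Type) (_ : Field K)
      (θ : Fin n → Kˣ), P K θ ∧ ¬ Ind (Function.update r j (put i i' S (r j))) θ (j.1 + 1)
        Finset.univ} := by
    apply Set.Finite.subset (Finset.finite_toSet (TW i i' (r j)).powerset)
    intro S hS
    rw [Finset.mem_coe, Finset.mem_powerset]
    exact hS.1
  refine Nat.card_le_card_of_injective (fun S => ⟨S.1, S.2.1, ?_⟩) ?_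
  · obtain ⟨S, hS, hb⟩ := S
    obtain ⟨_, _, _, K, hK, θ, hθ, hh, hind, ⟨z, hz1, hz2⟩, hnot⟩ := hb
    refine ⟨K, hK, θ, ⟨?_, hh, ?_, ⟨z, ?_, hz2⟩, ?_⟩, hnot⟩
    · intro l
      rw [← hpos S hS l]
      exact hθ l
    · apply ind_congr θ (Function.update r j (put i i' S (r j))) r j.1 _ _ hind
      intro l hl x _
      rw [hlt S l hl]
    · intro l hl
      have := hz1 l hl
      rw [hlt S l hl] at this
      exact this
    · intro a
      rcases a with a | l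
      · by_contra hne
        apply hnot
        apply ind_mono h8 θ _ _ I _ (Finset.subset_univ _)
        apply ind_congr θ r (Function.update r j (put i i' S (r j))) (j.1 + 1) I _
          (ind_of_ne h8 θ r (j.1 + 1) I a hne)
        intro l _ x hx
        exact (hfox S hS l x (hIne x hx).1 (hIne x hx).2).symm
      · apply (evl_X_sub_one θ _).mpr
        rw [← hpos S hS l]
        exact hθ l
  · intro S T hST
    apply Subtype.ext
    exact congrArg (fun x => x.1) hST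

end BHp

theorem taskBH (h1 : TaskSTEP) (h2 : TaskKEYP) (h3 : TaskFX) (h4 : TaskRAD) (h5 : TaskCT)
    (h6 : TaskCC) (h7 : TaskSZ) (h8 : TaskMIN) (h9 : TaskTR) (h10 : TaskFOXW) : TaskBH := by
  intro n
  obtain ⟨D, hD⟩ := h6 n
  refine ⟨D + n, ?_⟩
  intro ℓ m S0 C j i i' hmn hii
  apply h2 n ℓ m j i i' (BadH S0 C j i i') (2 ^ S0) (EE n ℓ ^ (D + n)) hii
  intro r hcan
  exact BHp.core h1 h3 h4 h5 h7 h8 h9 h10 n D hD ℓ m S0 C j i i' hmn hii (fun l => (r l).1) hcan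

end Pool.Agent.H577R3.RM
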